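import Mathlib

set_option autoImplicit false

/-! Definitions: weakly pseudocompact spaces, `ℝ`-factorizable groups, precompact groups. -/

open Topology Set

namespace Pool.Agent.Lib.MP_bb2768_gt

/-- `X` is weakly pseudocompact: it has a Hausdorff compactification `K` (a compact Hausdorff space
with a dense embedding `e : X → K`) in which `X` meets every nonempty `G_δ`-set. -/
def WeaklyPseudocompact (X : Type) [TopologicalSpace X] : Prop :=
  ∃ (K : Type) (_ : TopologicalSpace K) (_ : CompactSpace K) (_ : T2Space K) (e : X → K),
    IsEmbedding e ∧ DenseRange e ∧ ∀ S : Set K, IsGδ S → S.Nonempty → ∃ x, e x ∈ S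

/-- `G` is `ℝ`-factorizable: every continuous `f : G → ℝ` factors as `h ∘ π` where `π` is a
continuous homomorphism onto a second-countable Hausdorff topological group `H` and `h` is
continuous. -/
def RFactorizable (G : Type) [Group G] [TopologicalSpace G] : Prop :=
  ∀ f : G → ℝ, Continuous f → ∃ (H : Type) (_ : Group H) (_ : TopologicalSpace H)
    (_ : IsTopologicalGroup H) (_ : T2Space H) (_ : SecondCountableTopology H)
    (π : G →* H) (h : H → ℝ), Continuous π ∧ Function.Surjective π ∧ Continuous h ∧
      ∀ x, f x = h (π x)

/-- `G` is precompact: for every neighbourhood `U` of the identity there is a finite `F` with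
`G = F U`. -/
def Precompact (G : Type) [Group G] [TopologicalSpace G] : Prop :=
  ∀ U ∈ 𝓝 (1 : G), ∃ F : Set G, F.Finite ∧ ∀ g : G, ∃ a ∈ F, ∃ u ∈ U, g = a * u

end Pool.Agent.Lib.MP_bb2768_gt
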