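import Mathlib

/-!
# The theorem of Kakutani and Kodaira

In a Hausdorff locally compact `σ`-compact group every sequence of neighbourhoods of the identity contains a compact normal
subgroup `N` such that `H ⧸ N` is second countable.
-/

set_option autoImplicit false

open Topology Set Filter Pointwise

namespace Pool.Agent.Lib.MPbb2768.KK

variable {H : Type} [Group H] [TopologicalSpace H] [IsTopologicalGroup H]

/-- One step of the construction. -/
lemma step (K U W : Set H) (hK : IsCompact K) (hU : U ∈ 𝓝 (1 : H)) (hW : W ∈ 𝓝 (1 : H)) :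
    ∃ V ∈ 𝓝 (1 : H), IsClosed V ∧ V⁻¹ = V ∧ V * V ⊆ W ∧ V ⊆ U ∧ V ⊆ W ∧ ∀ x ∈ K, ∀ y ∈ V, x * y * x⁻¹ ∈ W := by
  have h1 : ∀ᶠ y in 𝓝 (1 : H), ∀ x ∈ K, x * y * x⁻¹ ∈ W := by
    refine hK.eventually_forall_of_forall_eventually (x₀ := (1 : H)) (P := fun x y => y * x * y⁻¹ ∈ W) ?_
    intro x hx
    have h2 : Tendsto (fun z : H × H => z.2 * z.1 * z.2⁻¹) (𝓝 ((1 : H), x)) (𝓝 (x * 1 * x⁻¹)) := by
      have : Continuous (fun z : H × H => z.2 * z.1 * z.2⁻¹) := by fun_prop
      exact this.tendsto (1, x)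
    have h3 : x * 1 * x⁻¹ = 1 := by group
    rw [h3] at h2
    exact h2 hW
  have h4 : (W ∩ U ∩ {y | ∀ x ∈ K, x * y * x⁻¹ ∈ W}) ∈ 𝓝 (1 : H) := inter_mem (inter_mem hW hU) h1
  obtain ⟨V, hV, hVc, hVi, hVV⟩ := exists_closed_nhds_one_inv_eq_mul_subset h4
  have h1V : (1 : H) ∈ V := mem_of_mem_nhds hV
  have hsub : V ⊆ V * V := fun v hv => ⟨v, hv, 1, h1V, mul_one v⟩
  refine ⟨V, hV, hVc, hVi, fun y hy => (hVV hy).1.1, fun y hy => (hVV (hsub hy)).1.2,
    fun y hy => (hVV (hsub hy)).1.1, fun x hx y hy => (hVV (hsub hy)).2 x hx⟩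

theorem exists_normal [T2Space H] [LocallyCompactSpace H] [SigmaCompactSpace H] (U : ℕ → Set H)
    (hU : ∀ n, U n ∈ 𝓝 (1 : H)) :
    ∃ (N : Subgroup H) (_ : N.Normal), IsCompact (N : Set H) ∧ (∀ n, (N : Set H) ⊆ U n) ∧
      SecondCountableTopology (H ⧸ N) := by
  obtain ⟨C, hCc, hC⟩ := exists_compact_mem_nhds (1 : H)
  have hstep : ∀ (n : ℕ) (W : {V : Set H // V ∈ 𝓝 (1 : H)}), ∃ V : {V : Set H // V ∈ 𝓝 (1 : H)},
      IsClosed V.1 ∧ V.1⁻¹ = V.1 ∧ V.1 * V.1 ⊆ W.1 ∧ V.1 ⊆ U n ∧ V.1 ⊆ W.1 ∧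
        ∀ x ∈ compactCovering H n, ∀ y ∈ V.1, x * y * x⁻¹ ∈ W.1 := by
    intro n W
    obtain ⟨V, hV, h⟩ := step (compactCovering H n) (U n) W.1 (isCompact_compactCovering H n) (hU n) W.2
    exact ⟨⟨V, hV⟩, h⟩
  choose F hF using hstep
  set W : ℕ → {V : Set H // V ∈ 𝓝 (1 : H)} := fun n => Nat.rec ⟨C, hC⟩ (fun n V => F n V) n with hWdef
  have hW : ∀ n, W (n + 1) = F n (W n) := fun n => rfl
  have hcl : ∀ n, IsClosed (W n).1 := by
    intro n
    cases n with
    | zero => exact hCc.isClosed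
    | succ n => rw [hW]; exact (hF n (W n)).1
  have hinv : ∀ n, (W (n + 1)).1⁻¹ = (W (n + 1)).1 := fun n => by rw [hW]; exact (hF n (W n)).2.1
  have hmul : ∀ n, (W (n + 1)).1 * (W (n + 1)).1 ⊆ (W n).1 := fun n => by rw [hW]; exact (hF n (W n)).2.2.1
  have hsU : ∀ n, (W (n + 1)).1 ⊆ U n := fun n => by rw [hW]; exact (hF n (W n)).2.2.2.1
  have hsW : ∀ n, (W (n + 1)).1 ⊆ (W n).1 := fun n => by rw [hW]; exact (hF n (W n)).2.2.2.2.1
  have hconj : ∀ n, ∀ x ∈ compactCovering H n, ∀ y ∈ (W (n + 1)).1, x * y * x⁻¹ ∈ (W n).1 := fun n => by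
    rw [hW]; exact (hF n (W n)).2.2.2.2.2
  have hanti : Antitone (fun n => (W n).1) := antitone_nat_of_succ_le hsW
  have hcomp : ∀ n, IsCompact (W n).1 := fun n => hCc.of_isClosed_subset (hcl n) (hanti (Nat.zero_le n))
  let N : Subgroup H :=
    { carrier := ⋂ n, (W n).1
      mul_mem' := by
        intro a b ha hb
        rw [mem_iInter] at ha hb ⊢
        exact fun n => hmul n ⟨a, ha (n + 1), b, hb (n + 1), rfl⟩
      one_mem' := mem_iInter.2 fun n => mem_of_mem_nhds (W n).2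
      inv_mem' := by
        intro a ha
        rw [mem_iInter] at ha ⊢
        intro n
        refine hsW n ?_
        rw [← hinv n, Set.mem_inv, inv_inv]
        exact ha (n + 1) }
  have hNmem : ∀ x : H, x ∈ N ↔ ∀ n, x ∈ (W n).1 := fun x => mem_iInter
  have hNn : N.Normal := by
    constructor
    intro y hy g
    rw [hNmem] at hy ⊢
    intro k
    obtain ⟨m, hm⟩ := exists_mem_compactCovering g
    have h1 : g ∈ compactCovering H (max k m) := compactCovering_subset H (le_max_right k m) hm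
    exact hanti (le_max_left k m) (hconj _ g h1 y (hy (max k m + 1)))
  have hNclosed : IsClosed (N : Set H) := isClosed_iInter hcl
  have hNc : IsCompact (N : Set H) := (hcomp 0).of_isClosed_subset hNclosed (iInter_subset _ 0)
  refine ⟨N, hNn, hNc, fun n => (iInter_subset _ (n + 1)).trans (hsU n), ?_⟩
  -- the quotient is first countable
  have hbasis : (𝓝 (1 : H ⧸ N)).HasBasis (fun _ : ℕ => True) (fun n => ((↑) : H → H ⧸ N) '' (W n).1) := by
    constructor
    intro S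
    constructor
    · intro hS
      have hO : IsOpen (((↑) : H → H ⧸ N) ⁻¹' (interior S)) := isOpen_interior.preimage QuotientGroup.continuous_mk
      have h1 : ∀ x ∈ ⋂ n, (W n).1, (((↑) : H → H ⧸ N) ⁻¹' (interior S)) ∈ 𝓝 x := by
        intro x hx
        refine hO.mem_nhds ?_
        have hx' : x ∈ N := hx
        have h2 : ((x : H) : H ⧸ N) = 1 := (QuotientGroup.eq_one_iff x).2 hx'
        rw [mem_preimage, h2]
        exact mem_interior_iff_mem_nhds.2 hS
      obtain ⟨n, hn⟩ := exists_subset_nhds_of_isCompact' (V := fun n => (W n).1) hanti.directed_ge hcomp hcl h1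
      refine ⟨n, trivial, ?_⟩
      rintro _ ⟨x, hx, rfl⟩
      exact interior_subset (hn hx)
    · rintro ⟨n, -, hn⟩
      refine mem_of_superset ?_ hn
      have : (𝓝 (1 : H ⧸ N)) = Filter.map ((↑) : H → H ⧸ N) (𝓝 (1 : H)) := by
        rw [← QuotientGroup.nhds_eq]; rfl
      rw [this]
      exact image_mem_map (W n).2
  have hcg : (𝓝 (1 : H ⧸ N)).IsCountablyGenerated :=
    HasCountableBasis.isCountablyGenerated ⟨hbasis, Set.to_countable _⟩
  let _ : UniformSpace (H ⧸ N) := IsTopologicalGroup.rightUniformSpace (H ⧸ N)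
  have : (uniformity (H ⧸ N)).IsCountablyGenerated := comap.isCountablyGenerated _ _
  let _ : PseudoMetricSpace (H ⧸ N) := TopologicalSpace.pseudoMetrizableSpacePseudoMetric (H ⧸ N)
  have : SigmaCompactSpace (H ⧸ N) := by
    rw [← isSigmaCompact_univ_iff]
    have h1 : (univ : Set (H ⧸ N)) = ((↑) : H → H ⧸ N) '' univ := by
      rw [image_univ, (QuotientGroup.mk_surjective (s := N)).range_eq]
    rw [h1]
    exact isSigmaCompact_univ.image QuotientGroup.continuous_mk
  infer_instance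

end Pool.Agent.Lib.MPbb2768.KK
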