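import Pool.Agent.Lib.MP_bb2768_gt.LPA

/-!
# `G_δ`-dense subgroups of `σ`-compact locally compact groups are `ℝ`-factorizable
-/

set_option autoImplicit false

open Topology Set Pointwise

namespace Pool.Agent.Lib.MP_bb2768_gt

/-- The theorem of Kakutani and Kodaira. -/
def SpecKK : Prop :=
  ∀ (H : Type) [Group H] [TopologicalSpace H] [IsTopologicalGroup H] [T2Space H]
    [LocallyCompactSpace H] [SigmaCompactSpace H] (U : ℕ → Set H), (∀ n, U n ∈ 𝓝 (1 : H)) →
    ∃ (N : Subgroup H) (_ : N.Normal), IsCompact (N : Set H) ∧ (∀ n, (N : Set H) ⊆ U n) ∧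
      SecondCountableTopology (H ⧸ N)

namespace LPM

variable {H : Type} [Group H] [TopologicalSpace H] [IsTopologicalGroup H] [T2Space H]

/-- Countable chain condition. -/
theorem ccc [LocallyCompactSpace H] [SigmaCompactSpace H] {ι : Type} (O : ι → Set H)
    (hO : ∀ i, IsOpen (O i)) (hne : ∀ i, (O i).Nonempty)
    (hd : Pairwise (Function.onFun Disjoint O)) : Countable ι := by
  borelize H
  have h1 := MeasureTheory.Measure.countable_meas_pos_of_disjoint_iUnion
    (μ := (MeasureTheory.Measure.haar : MeasureTheory.Measure H))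
    (fun i => (hO i).measurableSet) hd
  have h2 : {i | 0 < (MeasureTheory.Measure.haar : MeasureTheory.Measure H) (O i)} = univ := by
    ext i
    simp only [Set.mem_ofPred_eq, mem_univ, iff_true]
    exact (hO i).measure_pos _ (hne i)
  rw [h2] at h1
  exact countable_univ_iff.1 h1

/-- `O` is invariant under right multiplication by elements of `N`. -/
def Inv (N : Subgroup H) (O : Set H) : Prop := ∀ x ∈ O, ∀ n ∈ N, x * n ∈ O

/-- Each neighbourhood of `1` contains an open one which is invariant under all subgroups in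
countably many neighbourhoods of `1`. -/
theorem exists_basic {U : Set H} (hU : U ∈ 𝓝 (1 : H)) :
    ∃ (V : Set H) (W : ℕ → Set H), IsOpen V ∧ (1 : H) ∈ V ∧ V ⊆ U ∧ (∀ n, W n ∈ 𝓝 (1 : H)) ∧
      ∀ N : Subgroup H, (∀ n, (N : Set H) ⊆ W n) → Inv N V := by
  have hstep : ∀ A : {A : Set H // A ∈ 𝓝 (1 : H)}, ∃ B : {A : Set H // A ∈ 𝓝 (1 : H)},
      IsOpen B.1 ∧ B.1 * B.1 ⊆ A.1 := by
    rintro ⟨A, hA⟩
    obtain ⟨B, hB, hB1, hBA⟩ := exists_open_nhds_one_mul_subset hA
    exact ⟨⟨B, hB.mem_nhds hB1⟩, hB, hBA⟩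
  choose g hg1 hg2 using hstep
  let W : ℕ → {A : Set H // A ∈ 𝓝 (1 : H)} := fun n => Nat.rec ⟨U, hU⟩ (fun _ A => g A) n
  have hW : ∀ n, (W (n + 1)).1 * (W (n + 1)).1 ⊆ (W n).1 := fun n => hg2 (W n)
  have hWo : IsOpen (W 1).1 := hg1 (W 0)
  have h1 : ∀ n, (1 : H) ∈ (W n).1 := fun n => mem_of_mem_nhds (W n).2
  have hWs : ∀ n, (W (n + 1)).1 ⊆ (W n).1 := fun n x hx =>
    hW n (mem_mul.2 ⟨x, hx, 1, h1 (n + 1), mul_one x⟩)
  refine ⟨(W 1).1 * (⋂ n, (W n).1), fun n => (W n).1, hWo.mul_right, ?_, ?_, fun n => (W n).2, ?_⟩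
  · exact mem_mul.2 ⟨1, h1 1, 1, mem_iInter.2 h1, mul_one 1⟩
  · rintro _ ⟨a, ha, d, hd, rfl⟩
    exact hW 0 (mem_mul.2 ⟨a, ha, d, mem_iInter.1 hd 1, rfl⟩)
  · rintro N hN _ ⟨a, ha, d, hd, rfl⟩ n hn
    refine mem_mul.2 ⟨a, ha, d * n, ?_, (mul_assoc a d n).symm⟩
    rw [mem_iInter]
    intro k
    exact hW k (mem_mul.2 ⟨d, mem_iInter.1 hd (k + 1), n, hN (k + 1) hn, rfl⟩)

theorem Inv.closure {N : Subgroup H} {O : Set H} (h : Inv N O) : Inv N (closure O) := by
  intro x hx n hn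
  exact map_mem_closure (f := fun y : H => y * n) (continuous_mul_const n) hx
    fun y hy => h y hy n hn

/-- A countable family of neighbourhoods as a sequence. -/
theorem exists_nat {α : Type} [Countable α] (U : α → Set H) (hU : ∀ a, U a ∈ 𝓝 (1 : H)) :
    ∃ U' : ℕ → Set H, (∀ n, U' n ∈ 𝓝 (1 : H)) ∧ ∀ a, ∃ n, U' n = U a := by
  rcases isEmpty_or_nonempty α with he | hne
  · exact ⟨fun _ => univ, fun _ => Filter.univ_mem, fun a => (he.false a).elim⟩
  · obtain ⟨s, hs⟩ := exists_surjective_nat α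
    refine ⟨fun n => U (s n), fun n => hU _, fun a => ?_⟩
    obtain ⟨n, rfl⟩ := hs a
    exact ⟨n, rfl⟩

/-- The closure of an open set is invariant under all subgroups in countably many neighbourhoods
of `1`. -/
theorem exists_closure_inv [LocallyCompactSpace H] [SigmaCompactSpace H] {W : Set H}
    (hW : IsOpen W) :
    ∃ U : ℕ → Set H, (∀ n, U n ∈ 𝓝 (1 : H)) ∧
      ∀ N : Subgroup H, (∀ n, (N : Set H) ⊆ U n) → Inv N (closure W) := by
  let P : Set H → Prop := fun O => IsOpen O ∧ O.Nonempty ∧ O ⊆ W ∧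
    ∃ U : ℕ → Set H, (∀ n, U n ∈ 𝓝 (1 : H)) ∧
      ∀ N : Subgroup H, (∀ n, (N : Set H) ⊆ U n) → Inv N O
  obtain ⟨M, hM⟩ := zorn_subset {M : Set (Set H) | (∀ O ∈ M, P O) ∧ M.PairwiseDisjoint id} (by
    intro c hc hch
    refine ⟨⋃₀ c, ⟨?_, ?_⟩, fun s hs => subset_sUnion_of_mem hs⟩
    · rintro O ⟨s, hs, hO⟩
      exact (hc hs).1 O hO
    · rintro O ⟨s, hs, hO⟩ O' ⟨s', hs', hO'⟩ hne
      rcases hch.total hs hs' with h | h
      · exact (hc hs').2 (h hO) hO' hne
      · exact (hc hs).2 hO (h hO') hne)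
  have hMP : ∀ O ∈ M, P O := hM.prop.1
  have hMd : M.PairwiseDisjoint id := hM.prop.2
  have hcount : Countable M := ccc (fun O : M => (O : Set H)) (fun O => (hMP O O.2).1)
    (fun O => (hMP O O.2).2.1) (fun O O' hne => hMd O.2 O'.2 (fun e => hne (Subtype.ext e)))
  have hU : ∀ O : M, ∃ U : ℕ → Set H, (∀ n, U n ∈ 𝓝 (1 : H)) ∧
      ∀ N : Subgroup H, (∀ n, (N : Set H) ⊆ U n) → Inv N (O : Set H) := fun O => (hMP O O.2).2.2.2
  choose U hU1 hU2 using hU
  obtain ⟨U', hU'1, hU'2⟩ := exists_nat (fun a : M × ℕ => U a.1 a.2) (fun a => hU1 a.1 a.2)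
  refine ⟨U', hU'1, fun N hN => ?_⟩
  have hinv : Inv N (⋃₀ M) := by
    rintro x ⟨O, hO, hx⟩ n hn
    refine ⟨O, hO, hU2 ⟨O, hO⟩ N (fun k => ?_) x hx n hn⟩
    obtain ⟨m, hm⟩ := hU'2 (⟨O, hO⟩, k)
    exact hm ▸ hN m
  have hsub : ⋃₀ M ⊆ W := sUnion_subset fun O hO => (hMP O hO).2.2.1
  have hdense : W ⊆ closure (⋃₀ M) := by
    intro x hx
    by_contra hxc
    have hnh : (fun y => x * y) ⁻¹' (W ∩ (closure (⋃₀ M))ᶜ) ∈ 𝓝 (1 : H) := by
      apply (continuous_const_mul x).continuousAt.preimage_mem_nhds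
      show W ∩ (closure (⋃₀ M))ᶜ ∈ 𝓝 (x * 1)
      rw [mul_one]
      exact (hW.inter isClosed_closure.isOpen_compl).mem_nhds ⟨hx, hxc⟩
    obtain ⟨V, W', hV, hV1, hVU, hW'1, hW'2⟩ := exists_basic hnh
    have hO : P ((fun y => x * y) '' V) := by
      refine ⟨isOpenMap_mul_left x V hV, ⟨x * 1, 1, hV1, rfl⟩, ?_, W', hW'1, ?_⟩
      · rintro _ ⟨y, hy, rfl⟩
        exact (hVU hy).1
      · rintro N hN _ ⟨y, hy, rfl⟩ n hn
        exact ⟨y * n, hW'2 N hN y hy n hn, (mul_assoc x y n).symm⟩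
    have hdis : ∀ O ∈ M, Disjoint ((fun y => x * y) '' V) O := by
      intro O hOM
      rw [Set.disjoint_left]
      rintro _ ⟨y, hy, rfl⟩ hyO
      exact (hVU hy).2 (subset_closure ⟨O, hOM, hyO⟩)
    have hins : insert ((fun y => x * y) '' V) M ∈
        {M : Set (Set H) | (∀ O ∈ M, P O) ∧ M.PairwiseDisjoint id} := by
      refine ⟨?_, ?_⟩
      · rintro O (rfl | hO')
        · exact hO
        · exact hMP O hO'
      · rw [Set.pairwiseDisjoint_insert]
        exact ⟨hMd, fun O hO' _ => hdis O hO'⟩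
    have hle := hM.le_of_ge hins (subset_insert _ _)
    have hmem : (fun y => x * y) '' V ∈ M := hle (mem_insert _ _)
    have := hdis _ hmem
    rw [disjoint_self] at this
    have h3 : x * 1 ∈ (fun y => x * y) '' V := ⟨1, hV1, rfl⟩
    rw [this] at h3
    exact h3
  have hcl : closure W = closure (⋃₀ M) :=
    Subset.antisymm (closure_minimal hdense isClosed_closure) (closure_mono hsub)
  rw [hcl]
  exact hinv.closure

/-- `G_δ`-dense subgroups of `σ`-compact locally compact groups are `ℝ`-factorizable. -/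
theorem rFactorizable (hKK : SpecKK) [LocallyCompactSpace H] [SigmaCompactSpace H]
    (G : Subgroup H) (hG : GDeltaDense (G : Set H)) : RFactorizable G := by
  intro f hf
  have h1 : ∀ r : ℚ, ∃ W : Set H, IsOpen W ∧ (Subtype.val ⁻¹' W : Set G) = {x | (r : ℝ) < f x} :=
    fun r => isOpen_induced_iff.1 (isOpen_lt continuous_const hf)
  have h2 : ∀ r : ℚ, ∃ W : Set H, IsOpen W ∧ (Subtype.val ⁻¹' W : Set G) = {x | f x < (r : ℝ)} :=
    fun r => isOpen_induced_iff.1 (isOpen_lt hf continuous_const)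
  choose A hAo hA using h1
  choose B hBo hB using h2
  have hAm : ∀ (r : ℚ) (x : G), (x : H) ∈ A r ↔ (r : ℝ) < f x := fun r x => by
    have : x ∈ (Subtype.val ⁻¹' (A r) : Set G) ↔ x ∈ {x : G | (r : ℝ) < f x} := by rw [hA]
    exact this
  have hBm : ∀ (r : ℚ) (x : G), (x : H) ∈ B r ↔ f x < (r : ℝ) := fun r x => by
    have : x ∈ (Subtype.val ⁻¹' (B r) : Set G) ↔ x ∈ {x : G | f x < (r : ℝ)} := by rw [hB]
    exact this
  have hdis : ∀ r, Disjoint (A r) (B r) := by
    intro r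
    rw [Set.disjoint_iff_inter_eq_empty]
    by_contra hne
    obtain ⟨x, hx, hxG⟩ := hG.dense.inter_open_nonempty _ ((hAo r).inter (hBo r))
      (nonempty_iff_ne_empty.2 hne)
    have e1 := (hAm r ⟨x, hxG⟩).1 hx.1
    have e2 := (hBm r ⟨x, hxG⟩).1 hx.2
    exact absurd e1 (not_lt.2 e2.le)
  -- the normal subgroup
  have h3 : ∀ r : ℚ × Bool, ∃ U : ℕ → Set H, (∀ n, U n ∈ 𝓝 (1 : H)) ∧
      ∀ N : Subgroup H, (∀ n, (N : Set H) ⊆ U n) →
        Inv N (closure (if r.2 then A r.1 else B r.1)) := by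
    rintro ⟨r, b⟩
    cases b with
    | true => exact exists_closure_inv (hAo r)
    | false => exact exists_closure_inv (hBo r)
  choose U hU1 hU2 using h3
  obtain ⟨U', hU'1, hU'2⟩ := exists_nat (fun a : (ℚ × Bool) × ℕ => U a.1 a.2)
    (fun a => hU1 a.1 a.2)
  obtain ⟨N, _, hNc, hNU, hsc⟩ := hKK H U' hU'1
  have hNcl : IsClosed (N : Set H) := hNc.isClosed
  have hinv : ∀ r : ℚ × Bool, Inv N (closure (if r.2 then A r.1 else B r.1)) := by
    intro r
    refine hU2 r N fun k => ?_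
    obtain ⟨m, hm⟩ := hU'2 (r, k)
    exact hm ▸ hNU m
  have hinvA : ∀ r, Inv N (closure (A r)) := fun r => hinv (r, true)
  have hinvB : ∀ r, Inv N (closure (B r)) := fun r => hinv (r, false)
  let π : G →* H ⧸ N := (QuotientGroup.mk' N).comp G.subtype
  have hπc : Continuous π := QuotientGroup.continuous_mk.comp continuous_subtype_val
  have hπs : Function.Surjective π := by
    intro q
    have hgd : IsGδ ((fun x : H => (x : H ⧸ N)) ⁻¹' {q}) :=
      (IsGδ.singleton q).preimage QuotientGroup.continuous_mk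
    obtain ⟨y, hy⟩ := QuotientGroup.mk_surjective q
    obtain ⟨x, hx, hxq⟩ := hG _ hgd ⟨y, hy⟩
    exact ⟨⟨x, hx⟩, hxq⟩
  have hlt : ∀ x y : G, π x = π y → ¬ f x < f y := by
    intro x y e hxy
    obtain ⟨s, hs1, hs2⟩ := exists_rat_btwn hxy
    have hy : (y : H) ∈ closure (A s) := subset_closure ((hAm s y).2 hs2)
    have hx : (x : H) ∈ B s := (hBm s x).2 hs1
    have hn : (y : H)⁻¹ * x ∈ N := QuotientGroup.eq.1 e.symm
    have hx' : (x : H) ∈ closure (A s) := by
      have h4 := hinvA s y hy _ hn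
      rwa [mul_inv_cancel_left] at h4
    exact (Set.disjoint_left.1 ((hdis s).closure_left (hBo s))) hx' hx
  have hconst : ∀ x y : G, π x = π y → f x = f y := fun x y e =>
    le_antisymm (not_lt.1 (hlt y x e.symm)) (not_lt.1 (hlt x y e))
  refine ⟨H ⧸ N, inferInstance, inferInstance, inferInstance, inferInstance, hsc, π,
    fun q => f (Function.surjInv hπs q), hπc, hπs, ?_, fun x =>
      hconst _ _ (Function.surjInv_eq hπs (π x)).symm⟩
  rw [continuous_iff_continuousAt]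
  intro q0
  set g0 := Function.surjInv hπs q0 with hg0
  have hg0q : π g0 = q0 := Function.surjInv_eq hπs q0
  -- neighbourhoods of `q0` from open invariant sets
  have key : ∀ C : Set H, Inv N C → IsClosed C → (g0 : H) ∉ C →
      ∀ᶠ q in 𝓝 q0, ((Function.surjInv hπs q : G) : H) ∉ C := by
    intro C hC hCc hgC
    have hO : IsOpen ((fun x : H => (x : H ⧸ N)) '' Cᶜ) :=
      QuotientGroup.isOpenMap_coe _ hCc.isOpen_compl
    have hmem : q0 ∈ (fun x : H => (x : H ⧸ N)) '' Cᶜ := ⟨g0, hgC, hg0q⟩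
    filter_upwards [hO.mem_nhds hmem] with q hq hqC
    obtain ⟨o, ho, hoq⟩ := hq
    apply ho
    have e1 : π (Function.surjInv hπs q) = q := Function.surjInv_eq hπs q
    have e2 : (((Function.surjInv hπs q : G) : H) : H ⧸ N) = (o : H ⧸ N) := e1.trans hoq.symm
    have e3 : ((Function.surjInv hπs q : G) : H)⁻¹ * o ∈ N := QuotientGroup.eq.1 e2
    have e4 := hC _ hqC _ e3
    rwa [mul_inv_cancel_left] at e4
  rw [ContinuousAt, tendsto_order]
  constructor
  · intro a ha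
    obtain ⟨s, hs1, hs2⟩ := exists_rat_btwn ha
    have hg : (g0 : H) ∉ closure (B s) := fun hc =>
      (Set.disjoint_left.1 ((hdis s).symm.closure_left (hAo s))) hc ((hAm s g0).2 hs2)
    filter_upwards [key _ (hinvB s) isClosed_closure hg] with q hq
    have h5 : ¬ f (Function.surjInv hπs q) < s := fun h => hq (subset_closure ((hBm s _).2 h))
    exact lt_of_lt_of_le hs1 (not_lt.1 h5)
  · intro b hb
    obtain ⟨s, hs1, hs2⟩ := exists_rat_btwn hb
    have hg : (g0 : H) ∉ closure (A s) := fun hc =>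
      (Set.disjoint_left.1 ((hdis s).closure_left (hBo s))) hc ((hBm s g0).2 hs1)
    filter_upwards [key _ (hinvA s) isClosed_closure hg] with q hq
    have h5 : ¬ (s : ℝ) < f (Function.surjInv hπs q) := fun h =>
      hq (subset_closure ((hAm s _).2 h))
    exact lt_of_le_of_lt (not_lt.1 h5) hs2

end LPM

end Pool.Agent.Lib.MP_bb2768_gt
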