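import Mathlib
import Pool.Agent.Lib.MP_bb2768_gt.Defs

set_option autoImplicit false

/-! The `Σ`-product `L` of uncountably many copies of the two-element group, and the group
`ℤ × L`. -/

open Topology Set Filter

namespace Pool.Agent.Lib.MP_bb2768_gt

/-- The compact group `{1,-1}^ℝ`. -/
abbrev C : Type := ℝ → ℤˣ

/-- The support of a point of `C`. -/
def supp (x : C) : Set ℝ := {t | x t ≠ 1}

/-- The `Σ`-product: points with countable support. -/
def L : Subgroup C where
  carrier := {x | (supp x).Countable}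
  mul_mem' := by
    intro x y hx hy
    refine (hx.union hy).mono ?_
    intro t ht
    by_contra hcon
    simp only [supp, mem_union, mem_ofPred_eq, not_or, not_not] at hcon ht
    exact ht (by rw [Pi.mul_apply, hcon.1, hcon.2, one_mul])
  one_mem' := by
    have : supp (1 : C) = ∅ := by ext t; simp [supp]
    change (supp (1 : C)).Countable
    rw [this]; exact countable_empty
  inv_mem' := by
    intro x hx
    refine Countable.mono ?_ hx
    intro t ht
    simp only [supp, mem_ofPred_eq, Pi.inv_apply, ne_eq, inv_eq_one] at ht ⊢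
    exact ht

theorem mem_L {x : C} : x ∈ L ↔ (supp x).Countable := Iff.rfl

/-- Continuous functions on `L` are approximately determined by countably many coordinates. -/
theorem exists_countable_eps (f : L → ℝ) (hf : Continuous f) {ε : ℝ} (hε : 0 < ε) :
    ∃ A : Set ℝ, A.Countable ∧ ∀ x y : L, (∀ t ∈ A, x.1 t = y.1 t) → |f x - f y| ≤ ε := by
  by_contra hcon
  push Not at hcon
  choose! X Y hXY hfar using hcon
  -- the increasing sequence of countable sets
  let A : ℕ → Set ℝ := fun n => Nat.rec ∅ (fun _ B => B ∪ supp (X B).1 ∪ supp (Y B).1) n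
  have hA : ∀ n, A (n + 1) = A n ∪ supp (X (A n)).1 ∪ supp (Y (A n)).1 := fun n => rfl
  have hAc : ∀ n, (A n).Countable := by
    intro n
    induction n with
    | zero => exact countable_empty
    | succ n ih => rw [hA]; exact (ih.union (X (A n)).2).union (Y (A n)).2
  have hAm : Monotone A := monotone_nat_of_le_succ fun n => by
    rw [hA]; exact subset_union_left.trans subset_union_left
  let B : Set ℝ := ⋃ n, A n
  have hB : B.Countable := countable_iUnion hAc
  have hX : ∀ n, ∀ t ∉ B, (X (A n)).1 t = 1 := by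
    intro n t ht
    by_contra hne
    exact ht (mem_iUnion.2 ⟨n + 1, by rw [hA]; exact Or.inl (Or.inr hne)⟩)
  have hY : ∀ n, ∀ t ∉ B, (Y (A n)).1 t = 1 := by
    intro n t ht
    by_contra hne
    exact ht (mem_iUnion.2 ⟨n + 1, by rw [hA]; exact Or.inr hne⟩)
  let 𝒰 : Ultrafilter ℕ := hyperfilter ℕ
  have hle : (𝒰 : Filter ℕ) ≤ atTop := by
    rw [← Nat.cofinite_eq_atTop]; exact hyperfilter_le_cofinite
  obtain ⟨z, -, hz⟩ := isCompact_univ.ultrafilter_le_nhds (𝒰.map fun n => (X (A n)).1)
    (by simp)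
  have hz : Tendsto (fun n => (X (A n)).1) 𝒰 (𝓝 z) := hz
  have hzt : ∀ t, Tendsto (fun n => (X (A n)).1 t) 𝒰 (𝓝 (z t)) := fun t =>
    (tendsto_pi_nhds.1 hz) t
  have hzL : z ∈ L := by
    refine hB.mono ?_
    intro t ht
    by_contra htB
    have h1 : Tendsto (fun n => (X (A n)).1 t) 𝒰 (𝓝 1) := by
      refine tendsto_const_nhds.congr fun n => ?_
      exact (hX n t htB).symm
    exact ht (tendsto_nhds_unique (hzt t) h1)
  have hyt : Tendsto (fun n => (Y (A n)).1) 𝒰 (𝓝 z) := by
    refine tendsto_pi_nhds.2 fun t => ?_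
    refine (hzt t).congr' ?_
    by_cases ht : t ∈ B
    · obtain ⟨m, hm⟩ := mem_iUnion.1 ht
      have : ∀ᶠ n in (𝒰 : Filter ℕ), m ≤ n := hle (eventually_ge_atTop m)
      filter_upwards [this] with n hn
      exact hXY (A n) (hAc n) t (hAm hn hm)
    · exact Eventually.of_forall fun n => (hX n t ht).trans (hY n t ht).symm
  have h1 : Tendsto (fun n => f (X (A n))) 𝒰 (𝓝 (f ⟨z, hzL⟩)) :=
    (hf.tendsto _).comp (tendsto_subtype_rng.2 hz)
  have h2 : Tendsto (fun n => f (Y (A n))) 𝒰 (𝓝 (f ⟨z, hzL⟩)) :=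
    (hf.tendsto _).comp (tendsto_subtype_rng.2 hyt)
  have h3 := (h1.sub h2).abs
  rw [sub_self, abs_zero] at h3
  have h4 : ε ≤ 0 := ge_of_tendsto h3 (Eventually.of_forall fun n => (hfar (A n) (hAc n)).le)
  linarith

/-- Continuous functions on `L` depend on countably many coordinates. -/
theorem exists_countable (f : L → ℝ) (hf : Continuous f) :
    ∃ A : Set ℝ, A.Countable ∧ ∀ x y : L, (∀ t ∈ A, x.1 t = y.1 t) → f x = f y := by
  have h := fun n : ℕ => exists_countable_eps f hf (ε := 1 / (n + 1)) (by positivity)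
  choose A hA hAf using h
  refine ⟨⋃ n, A n, countable_iUnion hA, fun x y hxy => ?_⟩
  have h1 : |f x - f y| ≤ 0 := by
    refine ge_of_tendsto tendsto_one_div_add_atTop_nhds_zero_nat (Eventually.of_forall fun n => ?_)
    exact hAf n x y fun t ht => hxy t (mem_iUnion.2 ⟨n, ht⟩)
  exact sub_eq_zero.1 (abs_eq_zero.1 (le_antisymm h1 (abs_nonneg _)))

/-- The group `ℤ × L`. -/
abbrev GG : Type := Multiplicative ℤ × L

theorem not_precompact : ¬ Precompact GG := by
  intro h
  obtain ⟨F, hF, hcov⟩ := h ({1} ×ˢ univ) (by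
    have h1 : ({1} : Set (Multiplicative ℤ)) ∈ 𝓝 1 := (isOpen_discrete _).mem_nhds rfl
    exact prod_mem_nhds h1 univ_mem)
  have h2 : (univ : Set (Multiplicative ℤ)) ⊆ Prod.fst '' F := by
    intro n _
    obtain ⟨a, ha, u, hu, hau⟩ := hcov (n, 1)
    refine ⟨a, ha, ?_⟩
    have h3 : u.1 = 1 := hu.1
    have h4 := congrArg Prod.fst hau
    rw [Prod.fst_mul, h3, mul_one] at h4
    exact h4.symm
  exact infinite_univ ((hF.image _).subset h2)

/-- Extension by `1`. -/
noncomputable def ext (A : Set ℝ) (z : A → ℤˣ) : C := by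
  classical exact fun t => if h : t ∈ A then z ⟨t, h⟩ else 1

theorem ext_mem (A : Set ℝ) (hA : A.Countable) (z : A → ℤˣ) : ext A z ∈ L := by
  refine hA.mono ?_
  intro t ht
  by_contra hcon
  refine ht ?_
  unfold ext
  rw [dif_neg hcon]

theorem ext_apply (A : Set ℝ) (z : A → ℤˣ) {t : ℝ} (ht : t ∈ A) : ext A z t = z ⟨t, ht⟩ := by
  unfold ext
  rw [dif_pos ht]

theorem continuous_ext (A : Set ℝ) : Continuous (ext A) := by
  refine continuous_pi fun t => ?_
  by_cases ht : t ∈ A
  · have : (fun z : A → ℤˣ => ext A z t) = fun z => z ⟨t, ht⟩ := by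
      funext z; exact ext_apply A z ht
    rw [this]
    exact continuous_apply _
  · have : (fun z : A → ℤˣ => ext A z t) = fun _ => 1 := by
      funext z; unfold ext; rw [dif_neg ht]
    rw [this]
    exact continuous_const

theorem rFactorizable : RFactorizable GG := by
  intro f hf
  have h1 : ∀ n : Multiplicative ℤ, ∃ A : Set ℝ, A.Countable ∧ ∀ x y : L,
      (∀ t ∈ A, x.1 t = y.1 t) → f (n, x) = f (n, y) := fun n =>
    exists_countable (fun x => f (n, x)) (by fun_prop)
  choose A hA hAf using h1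
  let B : Set ℝ := ⋃ n, A n
  have hB : B.Countable := countable_iUnion hA
  have : Countable B := hB.to_subtype
  let π : GG →* Multiplicative ℤ × (B → ℤˣ) :=
    { toFun := fun g => (g.1, fun t => g.2.1 t.1)
      map_one' := rfl
      map_mul' := fun _ _ => rfl }
  have hπ : ∀ g, π g = (g.1, fun t => g.2.1 t.1) := fun _ => rfl
  refine ⟨Multiplicative ℤ × (B → ℤˣ), inferInstance, inferInstance, inferInstance, inferInstance,
    inferInstance, π, fun y => f (y.1, ⟨ext B y.2, ext_mem B hB y.2⟩), ?_, ?_, ?_, ?_⟩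
  · change Continuous fun g : GG => ((g.1, fun t => g.2.1 t.1) : Multiplicative ℤ × (B → ℤˣ))
    refine continuous_fst.prodMk (continuous_pi fun t => ?_)
    exact (continuous_apply t.1).comp (continuous_subtype_val.comp continuous_snd)
  · rintro ⟨n, z⟩
    refine ⟨(n, ⟨ext B z, ext_mem B hB z⟩), ?_⟩
    rw [hπ]
    refine Prod.ext rfl ?_
    funext t
    exact ext_apply B z t.2
  · refine hf.comp (continuous_fst.prodMk ?_)
    exact Continuous.subtype_mk ((continuous_ext B).comp continuous_snd) _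
  · rintro ⟨n, x⟩
    refine hAf n _ _ fun t ht => ?_
    have htB : t ∈ B := mem_iUnion.2 ⟨n, ht⟩
    exact (ext_apply B (fun t => x.1 t.1) htB).symm

end Pool.Agent.Lib.MP_bb2768_gt
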