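import Mathlib
import Pool.Agent.Lib.MP_bb2768_gt.Sigma

set_option autoImplicit false

/-! The compactification of `ℤ × L`: the disjoint union of copies `K_n` of `C`, where the compact
sets `K_n` converge to one point of `K_1` outside `L`. -/

open Topology Set Filter

namespace Pool.Agent.Lib.MP_bb2768_gt

/-- The underlying set of the compactification. -/
@[ext] structure K : Type where
  /-- the index of the copy -/
  idx : Multiplicative ℤ
  /-- the point of the copy -/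
  pos : C

/-- The special point. -/
def pt : K := ⟨1, fun _ => -1⟩

/-- Open sets: all sections are open, and if the special point belongs to the set, then all but
finitely many of the sets `{n} × C` are contained in it. -/
def KOpen (U : Set K) : Prop :=
  (∀ n : Multiplicative ℤ, IsOpen {c : C | (⟨n, c⟩ : K) ∈ U}) ∧
    (pt ∈ U → {n : Multiplicative ℤ | ∃ c : C, (⟨n, c⟩ : K) ∉ U}.Finite)

/-- The topology of `K`. -/
instance : TopologicalSpace K where
  IsOpen := KOpen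
  isOpen_univ := ⟨fun n => by simp, fun _ => by simp⟩
  isOpen_inter := by
    intro U V hU hV
    refine ⟨fun n => (hU.1 n).inter (hV.1 n), fun hp => ?_⟩
    refine ((hU.2 hp.1).union (hV.2 hp.2)).subset ?_
    rintro n ⟨c, hc⟩
    by_cases h : (⟨n, c⟩ : K) ∈ U
    · exact Or.inr ⟨c, fun h' => hc ⟨h, h'⟩⟩
    · exact Or.inl ⟨c, h⟩
  isOpen_sUnion := by
    intro S hS
    refine ⟨fun n => ?_, ?_⟩
    · have : {c : C | (⟨n, c⟩ : K) ∈ ⋃₀ S} = ⋃ U ∈ S, {c : C | (⟨n, c⟩ : K) ∈ U} := by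
        ext c; simp
      rw [this]
      exact isOpen_biUnion fun U hU => (hS U hU).1 n
    · rintro ⟨U, hU, hp⟩
      refine ((hS U hU).2 hp).subset ?_
      rintro n ⟨c, hc⟩
      exact ⟨c, fun h => hc ⟨U, hU, h⟩⟩

theorem isOpen_K {U : Set K} : IsOpen U ↔ KOpen U := Iff.rfl

theorem isOpen_of_not_mem {U : Set K}
    (hU : ∀ n : Multiplicative ℤ, IsOpen {c : C | (⟨n, c⟩ : K) ∈ U}) (hp : pt ∉ U) : IsOpen U :=
  isOpen_K.2 ⟨hU, fun h => absurd h hp⟩

theorem continuous_mk (n : Multiplicative ℤ) : Continuous (fun c : C => (⟨n, c⟩ : K)) :=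
  continuous_def.2 fun U hU => (isOpen_K.1 hU).1 n

theorem isOpen_slice {m : Multiplicative ℤ} (hm : m ≠ 1) : IsOpen {x : K | x.1 = m} := by
  refine isOpen_of_not_mem (fun n => ?_) (fun h => hm h.symm)
  by_cases h : n = m
  · have : {c : C | (⟨n, c⟩ : K) ∈ {x : K | x.1 = m}} = univ := by ext c; simp [h]
    rw [this]; exact isOpen_univ
  · have : {c : C | (⟨n, c⟩ : K) ∈ {x : K | x.1 = m}} = ∅ := by ext c; simp [h]
    rw [this]; exact isOpen_empty

theorem isOpen_slice_compl (m : Multiplicative ℤ) : IsOpen {x : K | x.1 ≠ m} := by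
  refine isOpen_K.2 ⟨fun n => ?_, fun _ => ?_⟩
  · by_cases h : n = m
    · have : {c : C | (⟨n, c⟩ : K) ∈ {x : K | x.1 ≠ m}} = ∅ := by ext c; simp [h]
      rw [this]; exact isOpen_empty
    · have : {c : C | (⟨n, c⟩ : K) ∈ {x : K | x.1 ≠ m}} = univ := by ext c; simp [h]
      rw [this]; exact isOpen_univ
  · refine (finite_singleton m).subset ?_
    rintro n ⟨c, hc⟩
    simpa using hc

/-- Small open sets avoiding the special point. -/
theorem isOpen_small (n : Multiplicative ℤ) {O : Set C} (hO : IsOpen O) :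
    IsOpen {x : K | x.1 = n ∧ x.2 ∈ O ∧ x.2 ≠ pt.2} := by
  refine isOpen_of_not_mem (fun m => ?_) (fun h => h.2.2 rfl)
  by_cases h : m = n
  · have : {c : C | (⟨m, c⟩ : K) ∈ {x : K | x.1 = n ∧ x.2 ∈ O ∧ x.2 ≠ pt.2}} = O ∩ {pt.2}ᶜ := by
      ext c; simp [h]
    rw [this]
    exact hO.inter isOpen_compl_singleton
  · have : {c : C | (⟨m, c⟩ : K) ∈ {x : K | x.1 = n ∧ x.2 ∈ O ∧ x.2 ≠ pt.2}} = ∅ := by
      ext c; simp [h]
    rw [this]; exact isOpen_empty

/-- Large open sets. -/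
theorem isOpen_large (n : Multiplicative ℤ) {O : Set C} (hO : IsOpen O) :
    IsOpen {x : K | x.1 = n → x.2 ∈ O} := by
  refine isOpen_K.2 ⟨fun m => ?_, fun _ => ?_⟩
  · by_cases h : m = n
    · have : {c : C | (⟨m, c⟩ : K) ∈ {x : K | x.1 = n → x.2 ∈ O}} = O := by ext c; simp [h]
      rw [this]; exact hO
    · have : {c : C | (⟨m, c⟩ : K) ∈ {x : K | x.1 = n → x.2 ∈ O}} = univ := by ext c; simp [h]
      rw [this]; exact isOpen_univ
  · refine (finite_singleton n).subset ?_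
    rintro m ⟨c, hc⟩
    by_contra hne
    exact hc fun h => absurd h hne

instance : T2Space K := by
  refine ⟨?_⟩
  -- the case of two points in the same slice, one of which is not the special coordinate
  have key : ∀ (n : Multiplicative ℤ) (c d : C), c ≠ d → d ≠ pt.2 →
      ∃ U V : Set K, IsOpen U ∧ IsOpen V ∧ (⟨n, c⟩ : K) ∈ U ∧ (⟨n, d⟩ : K) ∈ V ∧
        Disjoint U V := by
    intro n c d hcd hd
    obtain ⟨O₁, O₂, h1, h2, hc, hd', hdisj⟩ := t2_separation hcd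
    refine ⟨_, _, isOpen_large n h1, isOpen_small n h2, fun _ => hc, ⟨rfl, hd', hd⟩, ?_⟩
    rw [Set.disjoint_left]
    rintro x hx ⟨hx1, hx2, -⟩
    exact Set.disjoint_left.1 hdisj (hx hx1) hx2
  rintro ⟨n, c⟩ ⟨m, d⟩ hne
  by_cases hnm : n = m
  · subst hnm
    have hcd : c ≠ d := fun h => hne (by rw [h])
    by_cases hd : d = pt.2
    · obtain ⟨U, V, hU, hV, hdU, hcV, hdisj⟩ := key n d c hcd.symm (fun h => hcd (h.trans hd.symm))
      exact ⟨V, U, hV, hU, hcV, hdU, hdisj.symm⟩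
    · exact key n c d hcd hd
  · by_cases hm : m = 1
    · have hn : n ≠ 1 := fun h => hnm (h.trans hm.symm)
      refine ⟨{x : K | x.1 = n}, {x : K | x.1 ≠ n}, isOpen_slice hn, isOpen_slice_compl n, rfl,
        fun h => hnm h.symm, ?_⟩
      rw [Set.disjoint_left]
      intro x hx hx'
      exact hx' hx
    · refine ⟨{x : K | x.1 ≠ m}, {x : K | x.1 = m}, isOpen_slice_compl m, isOpen_slice hm, hnm,
        rfl, ?_⟩
      rw [Set.disjoint_left]
      intro x hx hx'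
      exact hx hx'

instance : CompactSpace K := by
  refine ⟨isCompact_iff_ultrafilter_le_nhds.2 fun 𝒰 _ => ?_⟩
  by_cases h : ∃ n : Multiplicative ℤ, {x : K | x.1 = n} ∈ 𝒰
  · obtain ⟨n, hn⟩ := h
    have h1 : IsCompact (Set.range fun c : C => (⟨n, c⟩ : K)) := isCompact_range (continuous_mk n)
    have h2 : (𝒰 : Filter K) ≤ 𝓟 (Set.range fun c : C => (⟨n, c⟩ : K)) := by
      rw [le_principal_iff]
      refine mem_of_superset hn ?_
      rintro ⟨m, c⟩ hx
      have hm : m = n := hx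
      exact ⟨c, by rw [hm]⟩
    obtain ⟨x, -, hx⟩ := h1.ultrafilter_le_nhds 𝒰 h2
    exact ⟨x, mem_univ _, hx⟩
  · push Not at h
    refine ⟨pt, mem_univ _, ?_⟩
    intro s hs
    obtain ⟨U, hUs, hU, hpU⟩ := mem_nhds_iff.1 hs
    refine mem_of_superset ?_ hUs
    by_contra hcon
    have hfin := (isOpen_K.1 hU).2 hpU
    have h3 : Uᶜ ∈ 𝒰 := Ultrafilter.compl_mem_iff_notMem.2 hcon
    have h4 : (⋃ n ∈ {n : Multiplicative ℤ | ∃ c : C, (⟨n, c⟩ : K) ∉ U}, {x : K | x.1 = n}) ∈ 𝒰 := by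
      refine mem_of_superset h3 ?_
      rintro ⟨n, c⟩ hx
      exact mem_iUnion₂.2 ⟨n, ⟨c, hx⟩, rfl⟩
    rw [Ultrafilter.finite_biUnion_mem_iff hfin] at h4
    obtain ⟨n, -, hn⟩ := h4
    exact h n hn

/-- The embedding of `ℤ × L`. -/
def emb (g : GG) : K := ⟨g.1, g.2.1⟩

theorem pt_notMem : (pt.2 : C) ∉ L := by
  intro h
  have h1 : supp (pt.2 : C) = univ := by
    ext t
    simp only [supp, pt, mem_ofPred_eq, mem_univ, iff_true]
    decide
  have h2 : (supp (pt.2 : C)).Countable := h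
  rw [h1] at h2
  exact Cardinal.not_countable_real h2

theorem continuous_emb : Continuous emb := by
  refine continuous_def.2 fun U hU => ?_
  rw [isOpen_iff_mem_nhds]
  rintro ⟨n, x⟩ hx
  have h1 : IsOpen {y : L | (⟨n, y.1⟩ : K) ∈ U} :=
    ((isOpen_K.1 hU).1 n).preimage continuous_subtype_val
  have h2 : ({n} : Set (Multiplicative ℤ)) ×ˢ {y : L | (⟨n, y.1⟩ : K) ∈ U} ∈ 𝓝 ((n, x) : GG) :=
    prod_mem_nhds ((isOpen_discrete _).mem_nhds rfl) (h1.mem_nhds hx)
  refine mem_of_superset h2 ?_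
  rintro ⟨m, y⟩ ⟨hm, hy⟩
  have hm' : m = n := hm
  subst hm'
  exact hy

theorem isEmbedding_emb : IsEmbedding emb := by
  refine ⟨⟨?_⟩, ?_⟩
  · refine le_antisymm (continuous_iff_le_induced.1 continuous_emb) ?_
    refine le_of_nhds_le_nhds fun g => ?_
    rw [nhds_induced]
    intro s hs
    obtain ⟨n, x⟩ := g
    rw [nhds_prod_eq, mem_prod_iff] at hs
    obtain ⟨a, ha, b, hb, hab⟩ := hs
    rw [nhds_subtype_eq_comap, mem_comap] at hb
    obtain ⟨b', hb', hbb⟩ := hb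
    obtain ⟨O, hOb, hO, hxO⟩ := mem_nhds_iff.1 hb'
    refine ⟨{y : K | y.1 = n ∧ y.2 ∈ O ∧ y.2 ≠ pt.2}, (isOpen_small n hO).mem_nhds
      ⟨rfl, hxO, fun h => pt_notMem (h ▸ x.2)⟩, ?_⟩
    rintro ⟨m, y⟩ ⟨hm, hy, -⟩
    have hm' : m = n := hm
    subst hm'
    exact hab ⟨mem_of_mem_nhds ha, hbb (hOb hy)⟩
  · rintro ⟨n, x⟩ ⟨m, y⟩ h
    have h1 := congrArg K.idx h
    have h2 := congrArg K.pos h
    exact Prod.ext h1 (Subtype.ext h2)

theorem gdelta_dense (S : Set K) (hS : IsGδ S) (hne : S.Nonempty) : ∃ g, emb g ∈ S := by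
  obtain ⟨U, hU, rfl⟩ := isGδ_iff_eq_iInter_nat.1 hS
  obtain ⟨⟨n, c⟩, hc⟩ := hne
  rw [mem_iInter] at hc
  have h1 : ∀ i, ∃ I : Finset ℝ, ∀ c' : C, (∀ t ∈ I, c' t = c t) → (⟨n, c'⟩ : K) ∈ U i := by
    intro i
    have h2 := (isOpen_K.1 (hU i)).1 n
    rw [isOpen_pi_iff] at h2
    obtain ⟨I, u, hu, hIu⟩ := h2 c (hc i)
    refine ⟨I, fun c' hc' => ?_⟩
    exact hIu fun t ht => by rw [hc' t ht]; exact (hu t ht).2
  choose I hI using h1
  let A : Set ℝ := ⋃ i, (I i : Set ℝ)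
  have hA : A.Countable := countable_iUnion fun i => (I i).countable_toSet
  refine ⟨(n, ⟨ext A fun t => c t.1, ext_mem A hA _⟩), ?_⟩
  rw [mem_iInter]
  intro i
  refine hI i _ fun t ht => ?_
  exact ext_apply A (fun t => c t.1) (mem_iUnion.2 ⟨i, ht⟩)

theorem denseRange_emb : DenseRange emb := by
  intro x
  rw [mem_closure_iff]
  intro U hU hx
  obtain ⟨g, hg⟩ := gdelta_dense U hU.isGδ ⟨x, hx⟩
  exact ⟨emb g, hg, mem_range_self g⟩

theorem weaklyPseudocompact : WeaklyPseudocompact GG :=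
  ⟨K, inferInstance, inferInstance, inferInstance, emb, isEmbedding_emb, denseRange_emb,
    gdelta_dense⟩

end Pool.Agent.Lib.MP_bb2768_gt
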