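import Pool.Agent.Lib.MP_bb2768_gt.Defs

/-!
# `G_δ`-dense subgroups of locally compact groups: weak pseudocompactness and precompactness
-/

set_option autoImplicit false

open Topology Set

namespace Pool.Agent.Lib.MP_bb2768_gt

/-- The set `A` meets every non-empty `G_δ`-subset of `H`. -/
def GDeltaDense {H : Type} [TopologicalSpace H] (A : Set H) : Prop :=
  ∀ S : Set H, IsGδ S → S.Nonempty → ∃ x ∈ A, x ∈ S

theorem GDeltaDense.dense {H : Type} [TopologicalSpace H] {A : Set H} (h : GDeltaDense A) :
    Dense A := by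
  rw [dense_iff_inter_open]
  intro U hU hne
  obtain ⟨x, hx, hxU⟩ := h U hU.isGδ hne
  exact ⟨x, hxU, hx⟩

namespace LPM

/-- `G_δ`-dense subspaces of compact spaces are weakly pseudocompact. -/
theorem wpc_compact {H : Type} [TopologicalSpace H] [T2Space H] [CompactSpace H] {A : Set H}
    (h : GDeltaDense A) : WeaklyPseudocompact A :=
  ⟨H, _, inferInstance, inferInstance, Subtype.val, IsEmbedding.subtypeVal,
    h.dense.denseRange_val, fun S hS hne => by
      obtain ⟨x, hx, hxS⟩ := h S hS hne
      exact ⟨⟨x, hx⟩, hxS⟩⟩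

/-- If `A` is `G_δ`-dense in the locally compact space `H` and the point `p` is not in `A` then
`A` is weakly pseudocompact: in the one point compactification of `H \ {p}`. -/
theorem wpc_point {H : Type} [TopologicalSpace H] [T2Space H] [LocallyCompactSpace H] {A : Set H}
    (h : GDeltaDense A) (p : H) (hp : p ∉ A) : WeaklyPseudocompact A := by
  have hopen : IsOpen {x : H | x ≠ p} := isOpen_ne
  have : LocallyCompactSpace {x : H // x ≠ p} := hopen.locallyCompactSpace
  let j : A → {x : H // x ≠ p} := fun a => ⟨a, fun e => hp (e ▸ a.2)⟩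
  have hj : IsEmbedding j := by
    have h1 : IsEmbedding ((Subtype.val : {x : H // x ≠ p} → H) ∘ j) := IsEmbedding.subtypeVal
    exact IsEmbedding.of_comp (Continuous.subtype_mk continuous_subtype_val _)
      continuous_subtype_val h1
  let e : A → OnePoint {x : H // x ≠ p} := fun a => ((j a : {x : H // x ≠ p}) : OnePoint _)
  have he : IsEmbedding e := OnePoint.isOpenEmbedding_coe.isEmbedding.comp hj
  have key : ∀ S : Set (OnePoint {x : H // x ≠ p}), IsGδ S → S.Nonempty → ∃ a, e a ∈ S := by
    intro S hS hne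
    obtain ⟨U, hU, rfl⟩ := isGδ_iff_eq_iInter_nat.1 hS
    obtain ⟨q, hq⟩ := hne
    rw [mem_iInter] at hq
    induction q using OnePoint.rec with
    | infty =>
      -- the sets `V n` are open neighbourhoods of `p`
      let V : ℕ → Set H := fun n => {y | ∀ hy : y ≠ p, ((⟨y, hy⟩ : {x : H // x ≠ p}) :
        OnePoint {x : H // x ≠ p}) ∈ U n}
      have hV : ∀ n, IsOpen (V n) := by
        intro n
        have h1 := ((OnePoint.isOpen_iff_of_mem (hq n)).1 (hU n)).2
        have h2 : IsCompact (Subtype.val '' ((↑) ⁻¹' (U n) : Set {x : H // x ≠ p})ᶜ : Set H) :=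
          h1.image continuous_subtype_val
        have h3 : V n = (Subtype.val '' ((↑) ⁻¹' (U n) : Set {x : H // x ≠ p})ᶜ : Set H)ᶜ := by
          ext y
          simp only [V, Set.mem_ofPred_eq, mem_compl_iff, mem_image, mem_preimage, Subtype.exists,
            exists_and_right, exists_eq_right, not_exists, not_not]
        rw [h3]
        exact h2.isClosed.isOpen_compl
      have hpV : p ∈ ⋂ n, V n := by
        rw [mem_iInter]
        intro n hy
        exact absurd rfl hy
      obtain ⟨a, ha, haV⟩ := h (⋂ n, V n) (IsGδ.iInter_of_isOpen hV) ⟨p, hpV⟩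
      refine ⟨⟨a, ha⟩, ?_⟩
      rw [mem_iInter] at haV ⊢
      intro n
      exact haV n _
    | coe q =>
      let V : ℕ → Set H := fun n => {y | ∃ hy : y ≠ p, ((⟨y, hy⟩ : {x : H // x ≠ p}) :
        OnePoint {x : H // x ≠ p}) ∈ U n}
      have hV : ∀ n, IsOpen (V n) := by
        intro n
        have h3 : V n = (Subtype.val '' ((↑) ⁻¹' (U n) : Set {x : H // x ≠ p}) : Set H) := by
          ext y
          simp only [V, Set.mem_ofPred_eq, mem_image, mem_preimage, Subtype.exists,
            exists_and_right, exists_eq_right]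
        rw [h3]
        exact hopen.isOpenMap_subtype_val _ ((hU n).preimage OnePoint.continuous_coe)
      obtain ⟨a, ha, haV⟩ := h (⋂ n, V n) (IsGδ.iInter_of_isOpen hV)
        ⟨q, mem_iInter.2 fun n => ⟨q.2, hq n⟩⟩
      refine ⟨⟨a, ha⟩, ?_⟩
      rw [mem_iInter] at haV ⊢
      intro n
      obtain ⟨_, h5⟩ := haV n
      exact h5
  refine ⟨OnePoint {x : H // x ≠ p}, _, inferInstance, inferInstance, e, he, ?_, key⟩
  rw [DenseRange, dense_iff_inter_open]
  intro U hU hne
  obtain ⟨a, ha⟩ := key U hU.isGδ hne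
  exact ⟨e a, ha, a, rfl⟩

/-- Weakly pseudocompact `σ`-compact spaces are compact. -/
theorem compact_of_wpc {X : Type} [TopologicalSpace X] [SigmaCompactSpace X]
    (h : WeaklyPseudocompact X) : CompactSpace X := by
  obtain ⟨K, _, _, _, e, he, -, hG⟩ := h
  have hsurj : Function.Surjective e := by
    intro p
    by_contra hno
    push Not at hno
    have hopen : ∀ n, IsOpen (e '' compactCovering X n)ᶜ := fun n =>
      ((isCompact_compactCovering X n).image he.continuous).isClosed.isOpen_compl
    obtain ⟨x, hx⟩ := hG (⋂ n, (e '' compactCovering X n)ᶜ) (IsGδ.iInter_of_isOpen hopen)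
      ⟨p, by
        rw [mem_iInter]
        rintro n ⟨x, -, hx⟩
        exact hno x hx⟩
    have hx' : x ∈ ⋃ n, compactCovering X n := by
      rw [iUnion_compactCovering]
      exact mem_univ x
    obtain ⟨n, hn⟩ := mem_iUnion.1 hx'
    exact (mem_iInter.1 hx n) ⟨x, hn, rfl⟩
  exact (he.toHomeomorphOfSurjective hsurj).symm.compactSpace

variable {H : Type} [Group H] [TopologicalSpace H] [IsTopologicalGroup H] [T2Space H]

/-- Weak pseudocompactness of `G_δ`-dense subgroups. -/
theorem wpc_iff [LocallyCompactSpace H] [SigmaCompactSpace H] (G : Subgroup H)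
    (hG : GDeltaDense (G : Set H)) : WeaklyPseudocompact G ↔ CompactSpace H ∨ G ≠ ⊤ := by
  constructor
  · intro h
    by_cases ht : G = ⊤
    · left
      subst ht
      have e : (⊤ : Subgroup H) ≃ₜ H :=
        { toFun := Subtype.val
          invFun := fun x => ⟨x, Subgroup.mem_top x⟩
          left_inv := fun _ => rfl
          right_inv := fun _ => rfl
          continuous_toFun := continuous_subtype_val
          continuous_invFun := continuous_id.subtype_mk _ }
      have : SigmaCompactSpace (⊤ : Subgroup H) := by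
        have h1 := isSigmaCompact_range e.symm.continuous
        rw [e.symm.surjective.range_eq] at h1
        exact isSigmaCompact_univ_iff.1 h1
      have := compact_of_wpc h
      exact e.compactSpace
    · exact Or.inr ht
  · rintro (h | h)
    · exact wpc_compact hG
    · obtain ⟨p, hp⟩ : ∃ p, p ∉ G := by
        by_contra hno
        push Not at hno
        exact h (Subgroup.eq_top_iff' G |>.2 hno)
      exact wpc_point hG p hp

/-- Precompactness of dense subgroups. -/
theorem precompact_iff [LocallyCompactSpace H] (G : Subgroup H) (hG : Dense (G : Set H)) :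
    Precompact G ↔ CompactSpace H := by
  constructor
  · intro h
    obtain ⟨C, hC, hC1⟩ := exists_compact_mem_nhds (1 : H)
    obtain ⟨F, hF, hFU⟩ := h (Subtype.val ⁻¹' C) (continuous_subtype_val.continuousAt hC1)
    have hK : IsCompact (⋃ a ∈ F, (fun x : H => (a : H) * x) '' C) :=
      hF.isCompact_biUnion fun a _ => hC.image (continuous_const.mul continuous_id)
    have hsub : (G : Set H) ⊆ ⋃ a ∈ F, (fun x : H => (a : H) * x) '' C := by
      intro g hg
      obtain ⟨a, ha, u, hu, e⟩ := hFU ⟨g, hg⟩
      rw [mem_iUnion₂]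
      exact ⟨a, ha, u, hu, (congrArg Subtype.val e).symm⟩
    have hall : (univ : Set H) ⊆ ⋃ a ∈ F, (fun x : H => (a : H) * x) '' C := by
      rw [← hG.closure_eq]
      exact hK.isClosed.closure_subset_iff.2 hsub
    exact ⟨hK.of_isClosed_subset isClosed_univ hall⟩
  · intro hc U hU
    rw [nhds_subtype_eq_comap, Filter.mem_comap] at hU
    obtain ⟨V, hV, hVU⟩ := hU
    rw [Subgroup.coe_one] at hV
    obtain ⟨W, hWo, hW1, hWV⟩ := exists_open_nhds_one_mul_subset hV
    have hW' : W ∩ W⁻¹ ∈ 𝓝 (1 : H) :=
      Filter.inter_mem (hWo.mem_nhds hW1) (by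
        have := (hWo.mem_nhds hW1)
        exact inv_mem_nhds_one H this)
    -- cover `H` by left translates
    obtain ⟨t, ht⟩ := (isCompact_univ (X := H)).elim_nhds_subcover
      (fun x => (fun y => x⁻¹ * y) ⁻¹' (interior (W ∩ W⁻¹))) (fun x _ => by
        apply (continuous_const.mul continuous_id).continuousAt.preimage_mem_nhds
        show interior (W ∩ W⁻¹) ∈ 𝓝 (x⁻¹ * x)
        rw [inv_mul_cancel]
        exact interior_mem_nhds.2 hW')
    have hgi : ∀ x : H, ∃ g : G, x⁻¹ * (g : H) ∈ W ∩ W⁻¹ := by
      intro x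
      have hO : IsOpen ((fun y => x⁻¹ * y) ⁻¹' (interior (W ∩ W⁻¹))) :=
        isOpen_interior.preimage (continuous_const.mul continuous_id)
      obtain ⟨g, hg1, hg2⟩ := hG.inter_open_nonempty _ hO ⟨x, by
        show x⁻¹ * x ∈ interior (W ∩ W⁻¹)
        rw [inv_mul_cancel]
        exact mem_interior_iff_mem_nhds.2 hW'⟩
      exact ⟨⟨g, hg2⟩, interior_subset hg1⟩
    choose g hg using hgi
    refine ⟨g '' (t : Set H), t.finite_toSet.image g, ?_⟩
    intro y
    have hy := ht.2 (mem_univ (y : H))
    rw [mem_iUnion₂] at hy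
    obtain ⟨x, hx, hxy⟩ := hy
    refine ⟨g x, ⟨x, hx, rfl⟩, (g x)⁻¹ * y, ?_, by rw [mul_inv_cancel_left]⟩
    apply hVU
    show ((((g x)⁻¹ * y : G)) : H) ∈ V
    apply hWV
    refine mem_mul.2 ⟨((g x : G) : H)⁻¹ * x, ?_, x⁻¹ * y, (interior_subset hxy).1, ?_⟩
    · have h1 := (hg x).2
      rw [Set.mem_inv, mul_inv_rev, inv_inv] at h1
      exact h1
    · rw [Subgroup.coe_mul, Subgroup.coe_inv]
      group

end LPM

end Pool.Agent.Lib.MP_bb2768_gt
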